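import Pool.Agent.H5.RatSphere

set_option autoImplicit false

namespace Pool.Agent.Results.MP_209919_co.NonPlanar

theorem result (d : ℕ) (ρ : ℝ) (hρ : 0 < ρ) (c : EuclideanSpace ℝ (Fin d)) :
    (∃ X : Set (EuclideanSpace ℝ (Fin d)), X ⊆ Metric.sphere c ρ ∧ X.Infinite ∧
      (∀ x ∈ X, ∀ y ∈ X, x ≠ y → ∃ q : ℚ, dist x y = (q : ℝ)) ∧
      ¬ ∃ (n : EuclideanSpace ℝ (Fin d)) (a : ℝ), n ≠ 0 ∧ ∀ x ∈ X, inner ℝ n x = a) ↔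
    (2 ≤ d ∧ ∃ q : ℚ, ρ ^ 2 = (q : ℝ)) :=
  H5.RatSphere.main d ρ hρ c

end Pool.Agent.Results.MP_209919_co.NonPlanar
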